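import Pool.Agent.Q195.CS.Main

/-!
MP_5bcb58_co: homological span of degree-zero chromatic symmetric homology.
-/

set_option linter.unusedSectionVars false
set_option linter.unusedVariables false

namespace Pool.Agent.Results.MP_5bcb58_co.BlockSpan

open Finset Equiv Pool.Agent.Q195.CS

/-- pairs of vertices, in lexicographic order -/
abbrev Pr (n : ℕ) := Fin n ×ₗ Fin n

open Classical in
/-- the edges of `G`: the pairs `(u, v)` with `u < v` and `u` adjacent to `v`,
ordered lexicographically -/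
noncomputable def edges {n : ℕ} (G : SimpleGraph (Fin n)) : Finset (Pr n) :=
  Finset.univ.filter fun e => (ofLex e).1 < (ofLex e).2 ∧ G.Adj (ofLex e).1 (ofLex e).2

/-- the spanning subgraph `([n], F)` -/
def spanning {n : ℕ} (F : Finset (Pr n)) : SimpleGraph (Fin n) :=
  SimpleGraph.fromRel fun u v => toLex (u, v) ∈ F

/-- `h` lies in the Young subgroup of `β(F)`: it maps every component of `([n], F)` to itself -/
def InYoung {n : ℕ} (F : Finset (Pr n)) (h : Perm (Fin n)) : Prop :=
  ∀ v, (spanning F).Reachable v (h v)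

/-- `i`-chains of `C(G)`. The component `z F` of a chain lies in `M_F`, the module of integer
functions on the symmetric group that are constant on the left cosets of the Young subgroup
(its basis is given by the indicator functions of the cosets), and only the edge sets
`F ⊆ E(G)` with `i` elements occur. -/
def IsChain {n : ℕ} (G : SimpleGraph (Fin n)) (i : ℕ)
    (z : Finset (Pr n) → Perm (Fin n) → ℤ) : Prop :=
  (∀ F, z F ≠ 0 → F ⊆ edges G ∧ F.card = i) ∧
    ∀ F g h, InYoung F h → z F (g * h) = z F g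

/-- the differential: the component at `F'` is the signed sum of the components at
`F = F' ∪ {e}`. (The transfer map sends the indicator function of a coset of the Young subgroup
of `F` to the sum of the indicator functions of the cosets of the Young subgroup of `F'` inside
it, that is, to the same function.) -/
def diff {n : ℕ} (z : Finset (Pr n) → Perm (Fin n) → ℤ) : Finset (Pr n) → Perm (Fin n) → ℤ :=
  fun F' => ∑ e ∈ F'ᶜ, (-1 : ℤ) ^ ((insert e F').filter (· < e)).card • z (insert e F')

/-- `H_k(G; ℤ) ≠ 0` -/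
def HomologyNonzero {n : ℕ} (G : SimpleGraph (Fin n)) (k : ℕ) : Prop :=
  ∃ z, IsChain G k z ∧ diff z = 0 ∧ ∀ y, IsChain G (k + 1) y → diff y ≠ z

/-- the homological span `k + 1`, with `k` the largest index with `H_k(G; ℤ) ≠ 0` -/
noncomputable def span0 {n : ℕ} (G : SimpleGraph (Fin n)) : ℕ :=
  sSup {k | HomologyNonzero G k} + 1

/-- deleting `v` increases the number of components -/
def IsCutVertex {W : Type*} (H : SimpleGraph W) (v : W) : Prop :=
  Nat.card H.ConnectedComponent < Nat.card (H.induce {v}ᶜ).ConnectedComponent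

/-- vertex sets of blocks: maximal sets spanning a connected graph without cut vertex -/
def IsBlock {n : ℕ} (G : SimpleGraph (Fin n)) (S : Set (Fin n)) : Prop :=
  Maximal (fun S : Set (Fin n) => (G.induce S).Connected ∧ ∀ v, ¬ IsCutVertex (G.induce S) v) S

/-- the number of blocks -/
noncomputable def numBlocks {n : ℕ} (G : SimpleGraph (Fin n)) : ℕ :=
  Nat.card {S : Set (Fin n) // IsBlock G S}

/-! ### translation -/

/-- first end -/
def ea {n : ℕ} (e : Pr n) : Fin n := (ofLex e).1
/-- second end -/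
def eb {n : ℕ} (e : Pr n) : Fin n := (ofLex e).2

lemma gr_eq {n : ℕ} (F : Finset (Pr n)) : gr ea eb F = spanning F := by
  unfold gr spanning
  congr 1
  funext u v
  apply propext
  constructor
  · rintro ⟨e, he, h1, h2⟩
    have : e = toLex (u, v) := by
      rw [← h1, ← h2]; rfl
    rwa [← this]
  · intro h
    exact ⟨toLex (u, v), h, rfl, rfl⟩

lemma chain_iff {n : ℕ} (G : SimpleGraph (Fin n)) (i : ℕ)
    (z : Finset (Pr n) → Perm (Fin n) → ℤ) :
    IsChain G i z ↔ IsCh (AS ℤ ea eb) ∅ (edges G) (i : ℤ) z := by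
  constructor
  · rintro ⟨h1, h2⟩
    refine ⟨fun F hF => ⟨(h1 F hF).1, by exact_mod_cast (h1 F hF).2⟩, ?_⟩
    intro F e he g
    rw [Finset.empty_union] at he
    refine h2 F g _ fun v => ?_
    rw [← gr_eq]
    exact reach_swap (gr_reach_edge he) v
  · rintro ⟨h1, h2⟩
    refine ⟨fun F hF => ⟨(h1 F hF).1, by exact_mod_cast (h1 F hF).2⟩, ?_⟩
    intro F g h hh
    refine AS_young (F := F) (fun e he => h2 F e (by simpa using he)) (fun v => ?_) g
    rw [gr_eq]
    exact hh v

lemma diff_eq {n : ℕ} (z : Finset (Pr n) → Perm (Fin n) → ℤ) : diff z = dd z := by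
  funext F
  unfold diff dd
  refine Finset.sum_congr rfl fun e he => ?_
  have : (insert e F).filter (· < e) = F.filter (· < e) := by
    rw [Finset.filter_insert, if_neg (lt_irrefl e)]
  rw [this]
  rfl

lemma nonzero_iff {n : ℕ} (G : SimpleGraph (Fin n)) (k : ℕ) :
    HomologyNonzero G k ↔ ¬ Van (AS ℤ ea eb) ∅ (edges G) (k : ℤ) := by
  unfold HomologyNonzero Van
  push Not
  constructor
  · rintro ⟨z, hz, hd, hy⟩
    refine ⟨z, (chain_iff G k z).1 hz, by rw [← diff_eq]; exact hd, fun y hy' => ?_⟩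
    rw [← diff_eq]
    refine hy y ((chain_iff G (k + 1) y).2 ?_)
    push_cast
    exact hy'
  · rintro ⟨z, hz, hd, hy⟩
    refine ⟨z, (chain_iff G k z).2 hz, by rw [diff_eq]; exact hd, fun y hy' => ?_⟩
    rw [diff_eq]
    refine hy y ?_
    have := (chain_iff G (k + 1) y).1 hy'
    push_cast at this
    exact this

lemma mem_edges {n : ℕ} {G : SimpleGraph (Fin n)} {e : Pr n} :
    e ∈ edges G ↔ ea e < eb e ∧ G.Adj (ea e) (eb e) := by
  unfold edges
  simp only [Finset.mem_filter, Finset.mem_univ, true_and]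
  rfl

lemma gr_edges {n : ℕ} (G : SimpleGraph (Fin n)) : gr ea eb (edges G) = G := by
  ext u v
  rw [gr_adj]
  constructor
  · rintro ⟨_, e, he, ⟨h1, h2⟩ | ⟨h1, h2⟩⟩
    · have := (mem_edges.1 he).2
      rwa [h1, h2] at this
    · have := (mem_edges.1 he).2
      rw [h1, h2] at this
      exact this.symm
  · intro h
    refine ⟨h.ne, ?_⟩
    rcases lt_or_gt_of_ne h.ne with h1 | h1
    · exact ⟨toLex (u, v), mem_edges.2 ⟨h1, h⟩, Or.inl ⟨rfl, rfl⟩⟩
    · exact ⟨toLex (v, u), mem_edges.2 ⟨h1, h.symm⟩, Or.inr ⟨rfl, rfl⟩⟩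

theorem upper {n : ℕ} (hn : 2 ≤ n) (G : SimpleGraph (Fin n)) {k : ℕ} (hk : n - 1 ≤ k) :
    ¬ HomologyNonzero G k := by
  rw [nonzero_iff, not_not]
  have h0 : nc (ea (n := n)) eb ∅ = n := by rw [nc_empty]; simp
  refine up_van _ _ _ _ rfl (by rw [h0]; exact hn) ?_
  rw [h0]
  omega

lemma span_le {n : ℕ} {G : SimpleGraph (Fin n)} {m : ℕ} (h : ∀ k, m < k → ¬ HomologyNonzero G k) :
    span0 G ≤ m + 1 := by
  unfold span0
  refine Nat.add_le_add_right ?_ 1
  by_cases hne : {k | HomologyNonzero G k}.Nonempty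
  · refine csSup_le hne fun k hk => ?_
    by_contra h1
    exact h k (by omega) hk
  · rw [Set.not_nonempty_iff_eq_empty.1 hne]
    simp

/-! ### blocks -/

lemma comps_one {W : Type*} [Finite W] {H : SimpleGraph W} (h : H.Connected) :
    Nat.card H.ConnectedComponent = 1 := by
  have := h.preconnected.subsingleton_connectedComponent
  have := h.nonempty
  have : Nonempty H.ConnectedComponent := ⟨H.connectedComponentMk (Classical.arbitrary W)⟩
  exact Nat.card_unique

/-- the two ends of an edge -/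
lemma pair_good {n : ℕ} {G : SimpleGraph (Fin n)} {u v : Fin n} (h : G.Adj u v) :
    (G.induce ({u, v} : Set (Fin n))).Connected ∧
      ∀ w, ¬ IsCutVertex (G.induce ({u, v} : Set (Fin n))) w := by
  constructor
  · have : Nonempty ({u, v} : Set (Fin n)) := ⟨⟨u, by simp⟩⟩
    refine ⟨?_⟩
    rintro ⟨x, hx⟩ ⟨y, hy⟩
    by_cases hxy : x = y
    · subst hxy; exact SimpleGraph.Reachable.refl _
    · refine SimpleGraph.Adj.reachable ?_
      show G.Adj x y
      rcases hx with rfl | hx <;> rcases hy with rfl | hy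
      · exact absurd rfl hxy
      · rw [Set.mem_singleton_iff] at hy; rw [hy]; exact h
      · rw [Set.mem_singleton_iff] at hx; rw [hx]; exact h.symm
      · rw [Set.mem_singleton_iff] at hx hy; rw [hx, hy] at hxy; exact absurd rfl hxy
  · rintro ⟨w, hw⟩ hcut
    unfold IsCutVertex at hcut
    rw [comps_one (by
      have : Nonempty ({u, v} : Set (Fin n)) := ⟨⟨u, by simp⟩⟩
      refine ⟨?_⟩
      rintro ⟨x, hx⟩ ⟨y, hy⟩
      by_cases hxy : x = y
      · subst hxy; exact SimpleGraph.Reachable.refl _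
      · refine SimpleGraph.Adj.reachable ?_
        show G.Adj x y
        rcases hx with rfl | hx <;> rcases hy with rfl | hy
        · exact absurd rfl hxy
        · rw [Set.mem_singleton_iff] at hy; rw [hy]; exact h
        · rw [Set.mem_singleton_iff] at hx; rw [hx]; exact h.symm
        · rw [Set.mem_singleton_iff] at hx hy; rw [hx, hy] at hxy; exact absurd rfl hxy)] at hcut
    have hsub : ∀ x y : ({⟨w, hw⟩}ᶜ : Set ({u, v} : Set (Fin n))), x = y := by
      rintro ⟨⟨x, hx⟩, hx'⟩ ⟨⟨y, hy⟩, hy'⟩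
      have hxw : x ≠ w := fun h => hx' (by subst h; rfl)
      have hyw : y ≠ w := fun h => hy' (by subst h; rfl)
      have hx2 : x = u ∨ x = v := hx
      have hy2 : y = u ∨ y = v := hy
      have hw2 : w = u ∨ w = v := hw
      have : x = y := by
        rcases hx2 with h1 | h1 <;> rcases hy2 with h2 | h2 <;> rcases hw2 with h3 | h3 <;>
          first
          | exact h1.trans h2.symm
          | exact absurd (h1.trans h3.symm) hxw
          | exact absurd (h2.trans h3.symm) hyw
      subst this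
      rfl
    have h1 : Nat.card ((G.induce ({u, v} : Set (Fin n))).induce {⟨w, hw⟩}ᶜ).ConnectedComponent ≤ 1 := by
      rw [Finite.card_le_one_iff_subsingleton]
      refine ⟨fun c d => ?_⟩
      induction c using SimpleGraph.ConnectedComponent.ind with | h x => ?_
      induction d using SimpleGraph.ConnectedComponent.ind with | h y => ?_
      rw [hsub x y]
    omega

lemma exists_block {n : ℕ} {G : SimpleGraph (Fin n)} {S : Set (Fin n)}
    (h : (G.induce S).Connected ∧ ∀ v, ¬ IsCutVertex (G.induce S) v) :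
    ∃ T, S ⊆ T ∧ IsBlock G T := by
  obtain ⟨T, hT, hm⟩ := (Set.toFinite {S : Set (Fin n) | (G.induce S).Connected ∧
    ∀ v, ¬ IsCutVertex (G.induce S) v}).exists_le_maximal h
  exact ⟨T, hT, hm⟩

lemma block_cut {n : ℕ} {G : SimpleGraph (Fin n)} {S : Set (Fin n)} (hS : IsBlock G S)
    (w : Fin n) (C : Finset (Fin n)) {c y : Fin n} (hc : c ∈ S) (hcC : c ∈ C) (hcw : c ≠ w)
    (hy : y ∈ S) (hyC : y ∉ C) (hyw : y ≠ w) :
    ∃ p q, p ∈ C ∧ q ∉ C ∧ q ≠ w ∧ G.Adj p q := by
  by_cases hw : w ∈ S
  · have h1 := hS.prop.2 ⟨w, hw⟩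
    unfold IsCutVertex at h1
    rw [comps_one hS.prop.1, not_lt, Finite.card_le_one_iff_subsingleton] at h1
    have h2 : ((G.induce S).induce {⟨w, hw⟩}ᶜ).Reachable ⟨⟨c, hc⟩, fun h => hcw (by
        have := congrArg Subtype.val h; exact this)⟩ ⟨⟨y, hy⟩, fun h => hyw (by
        have := congrArg Subtype.val h; exact this)⟩ :=
      SimpleGraph.ConnectedComponent.eq.1 (Subsingleton.elim _ _)
    obtain ⟨p, q, hp, hq, hpq⟩ := cut_of_reach h2 (fun x => x.1.1 ∈ C) hcC hyC
    refine ⟨p.1.1, q.1.1, hp, hq, ?_, hpq⟩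
    intro h
    exact q.2 (Subtype.ext h)
  · obtain ⟨p, q, hp, hq, hpq⟩ := cut_of_reach (hS.prop.1.preconnected ⟨c, hc⟩ ⟨y, hy⟩)
      (fun x => x.1 ∈ C) hcC hyC
    refine ⟨p.1, q.1, hp, hq, ?_, hpq⟩
    intro h
    exact hw (h ▸ q.2)

theorem lower {n : ℕ} (hn : 2 ≤ n) (G : SimpleGraph (Fin n)) (hG : G.Connected) :
    n ≤ span0 G + numBlocks G := by
  classical
  have : Nonempty (Fin n) := ⟨⟨0, by omega⟩⟩
  let BL : Finset (Finset (Fin n)) := Finset.univ.filter (fun B => IsBlock G (B : Set (Fin n)))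
  have hBL : BL.card = numBlocks G := by
    unfold numBlocks
    rw [← Nat.card_congr (Equiv.subtypeEquiv (p := fun B : Finset (Fin n) => IsBlock G (B : Set (Fin n)))
      (q := fun S : Set (Fin n) => IsBlock G S) Fintype.finsetEquivSet (fun B => Iff.rfl))]
    rw [Nat.card_eq_fintype_card, Fintype.card_subtype]
  obtain ⟨i, hi, hv⟩ := low_top (a := ea) (b := eb) (E := edges G)
    (by rw [gr_edges]; exact hG.preconnected)
    (fun e he => (mem_edges.1 he).1.ne) BL
    (by
      intro B hB
      have hB' : IsBlock G (B : Set (Fin n)) := (Finset.mem_filter.1 hB).2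
      obtain ⟨x⟩ := hB'.prop.1.nonempty
      exact ⟨x.1, x.2⟩)
    (by
      intro u v huv
      rw [gr_edges] at huv
      obtain ⟨T, hT, hTb⟩ := exists_block (pair_good huv)
      refine ⟨T.toFinset, ?_, ?_, ?_⟩
      · simp only [BL, Finset.mem_filter, Finset.mem_univ, true_and, Set.coe_toFinset]
        exact hTb
      · simpa using hT (by simp)
      · simpa using hT (by simp))
    (by
      intro B hB w C hc hy
      have hB' : IsBlock G (B : Set (Fin n)) := (Finset.mem_filter.1 hB).2
      obtain ⟨c, hc1, hc2, hc3⟩ := hc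
      obtain ⟨y, hy1, hy2, hy3⟩ := hy
      rw [gr_edges]
      exact block_cut hB' w C (by exact_mod_cast hc1) hc2 hc3 (by exact_mod_cast hy1) hy2 hy3)
  rw [Fintype.card_fin] at hv
  have hin : i ≤ n - 1 := by
    by_contra hcon
    apply hv
    intro z hz _
    refine ⟨0, IsCh.zero, ?_⟩
    rw [dd_zero]
    funext F
    by_contra h0
    have := (hz.supp F (Ne.symm h0)).2
    omega
  have hnz : HomologyNonzero G (n - 1 - i) := by
    rw [nonzero_iff]
    have h1 : ((n - 1 - i : ℕ) : ℤ) = (n : ℤ) - 1 - i := by omega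
    rw [h1]; exact hv
  have hle : n - 1 - i ≤ sSup {k | HomologyNonzero G k} := by
    refine le_csSup ⟨n - 1, ?_⟩ hnz
    intro k hk
    by_contra h1
    exact upper hn G (by omega) hk
  unfold span0
  rw [← hBL]
  omega

/-- two disjoint edges -/
def twoK2 : SimpleGraph (Fin 4) :=
  SimpleGraph.fromRel fun u v => (u = 0 ∧ v = 1) ∨ (u = 2 ∧ v = 3)

lemma twoK2_adj {u v : Fin 4} : twoK2.Adj u v ↔
    (u = 0 ∧ v = 1) ∨ (u = 2 ∧ v = 3) ∨ (v = 0 ∧ u = 1) ∨ (v = 2 ∧ u = 3) := by
  unfold twoK2
  rw [SimpleGraph.fromRel_adj]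
  revert u v
  decide

lemma edges_twoK2 : edges twoK2 = {toLex ((0 : Fin 4), (1 : Fin 4)), toLex ((2 : Fin 4), (3 : Fin 4))} := by
  ext e
  rw [mem_edges, twoK2_adj, Finset.mem_insert, Finset.mem_singleton]
  constructor
  · rintro ⟨h, h1 | h1 | h1 | h1⟩
    · left; show e = _
      have : e = toLex (ea e, eb e) := rfl
      rw [this, h1.1, h1.2]
    · right; show e = _
      have : e = toLex (ea e, eb e) := rfl
      rw [this, h1.1, h1.2]
    · rw [h1.1, h1.2] at h; exact absurd h (by decide)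
    · rw [h1.1, h1.2] at h; exact absurd h (by decide)
  · rintro (rfl | rfl)
    · exact ⟨by decide, by decide⟩
    · exact ⟨by decide, by decide⟩

lemma span_twoK2 : span0 twoK2 ≤ 1 := by
  refine span_le (m := 0) fun k hk => ?_
  rw [nonzero_iff, not_not, edges_twoK2]
  have hne : toLex ((0 : Fin 4), (1 : Fin 4)) ≠ toLex ((2 : Fin 4), (3 : Fin 4)) := by decide
  by_cases h1 : k = 1
  · subst h1
    exact van_two hne
  · refine van_top ⟨_, Finset.mem_insert_self _ _⟩ ?_
    rw [Finset.card_pair hne]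
    push_cast
    omega

lemma block_twoK2 {S : Set (Fin 4)} (hS : IsBlock twoK2 S) : S = {0, 1} ∨ S = {2, 3} := by
  have key : ∀ T : Finset (Fin 4), (∀ p q, p ∈ T → q ∉ T → ¬ twoK2.Adj p q) →
      ((twoK2.induce (T : Set (Fin 4))).Connected ∧
        ∀ v, ¬ IsCutVertex (twoK2.induce (T : Set (Fin 4))) v) →
      (∃ x ∈ S, x ∈ T) → S = T := by
    rintro T hT hP ⟨x, hxS, hxT⟩
    have hST : S ⊆ T := by
      intro y hy
      by_contra hyT
      obtain ⟨p, q, hp, hq, hpq⟩ := cut_of_reach (hS.prop.1.preconnected ⟨x, hxS⟩ ⟨y, hy⟩)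
        (fun x => x.1 ∈ T) hxT (by simpa using hyT)
      exact hT p.1 q.1 hp hq hpq
    exact Set.Subset.antisymm hST (hS.le_of_ge hP hST)
  obtain ⟨⟨x, hx⟩⟩ := hS.prop.1.nonempty
  have hall : ∀ x : Fin 4, x ∈ ({0, 1} : Finset (Fin 4)) ∨ x ∈ ({2, 3} : Finset (Fin 4)) := by
    decide
  have hx' := hall x
  rcases hx' with h | h
  · left
    have := key {0, 1} (by
      intro p q hp hq hpq
      rw [twoK2_adj] at hpq
      revert p q; decide) (by
      have h1 := pair_good (G := twoK2) (u := 0) (v := 1) (twoK2_adj.2 (by decide))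
      have h2 : (({0, 1} : Finset (Fin 4)) : Set (Fin 4)) = {0, 1} := by simp
      rw [h2]
      exact h1) ⟨x, hx, h⟩
    simpa using this
  · right
    have := key {2, 3} (by
      intro p q hp hq hpq
      rw [twoK2_adj] at hpq
      revert p q; decide) (by
      have h1 := pair_good (G := twoK2) (u := 2) (v := 3) (twoK2_adj.2 (by decide))
      have h2 : (({2, 3} : Finset (Fin 4)) : Set (Fin 4)) = {2, 3} := by simp
      rw [h2]
      exact h1) ⟨x, hx, h⟩
    simpa using this

lemma blocks_twoK2 : numBlocks twoK2 ≤ 2 := by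
  unfold numBlocks
  have h1 : {S : Set (Fin 4) | IsBlock twoK2 S} ⊆ {{0, 1}, {2, 3}} := by
    intro S hS
    exact block_twoK2 hS
  calc Nat.card {S : Set (Fin 4) // IsBlock twoK2 S}
      = Set.ncard {S : Set (Fin 4) | IsBlock twoK2 S} := rfl
    _ ≤ Set.ncard ({{0, 1}, {2, 3}} : Set (Set (Fin 4))) := Set.ncard_le_ncard h1 (Set.toFinite _)
    _ ≤ Set.ncard ({{2, 3}} : Set (Set (Fin 4))) + 1 := Set.ncard_insert_le _ _
    _ = 2 := by rw [Set.ncard_singleton]

/-- MP_5bcb58_co, Q1. For every graph on `n ≥ 2` vertices the upper bound `span₀ ≤ n - 1` holds;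
for every connected graph on `n ≥ 2` vertices with `b` blocks the lower bound `n - b ≤ span₀`
holds as well; for disconnected graphs the lower bound can fail (two disjoint edges). -/
theorem result :
    (∀ n : ℕ, 2 ≤ n → ∀ G : SimpleGraph (Fin n), span0 G + 1 ≤ n) ∧
    (∀ n : ℕ, 2 ≤ n → ∀ G : SimpleGraph (Fin n), G.Connected →
      n ≤ span0 G + numBlocks G) ∧
    (∃ G : SimpleGraph (Fin 4), span0 G + numBlocks G < 4) := by
  refine ⟨?_, ?_, ?_⟩
  · intro n hn G
    have := span_le (G := G) (m := n - 2) fun k hk => upper hn G (by omega)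
    omega
  · intro n hn G hG
    exact lower hn G hG
  · refine ⟨twoK2, ?_⟩
    have h1 := span_twoK2
    have h2 := blocks_twoK2
    omega

end Pool.Agent.Results.MP_5bcb58_co.BlockSpan
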